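import Pool.Agent.H91.AV.Targets
import Pool.Agent.H77.KX.BIZ

namespace Pool.Agent.H78.AV

open Finset Pool.Agent.H91.AV
open Pool.Agent.H96.KX (psz fac jun PDz prs)
open Pool.Agent.H77.KX (jun_nonneg sum_jun jun_some abs_sum_jun_le)

/-- for fixed `a`, the sum over `x` -/
theorem sum_x_eq {H U Z : Type} [Fintype U] [Fintype Z] [DecidableEq Z] (h : H → U → Z) {N : ℕ}
    (g : (Fin N → U) → ℝ) (a : Fin N → H) (D : (Fin N → Z) → ℝ) :
    (Fintype.card Z : ℝ) ^ N * bix h D g a = ∑ z, rhx h g a z * D z := by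
  unfold rhx bix
  simp only [Finset.sum_mul]
  rw [Finset.sum_comm, Finset.mul_sum]
  refine Finset.sum_congr rfl fun x _ => ?_
  simp only [jun_some]
  rw [Finset.sum_eq_single (fun i => h (a i) (x i))]
  · rw [if_pos rfl]
    ring
  · intro z _ hz
    rw [if_neg hz]
    ring
  · intro hz
    exact absurd (Finset.mem_univ _) hz

theorem pf_BIZ (hK : S_KAP) : S_BIZ := by
  classical
  intro H U Z _ _ _ _ _ h r c hr hc hh hcard N t D Mx W hD hz g hg
  obtain ⟨w, hw, hrho, hX⟩ := hK H U Z h r c hr hc hh hcard N t g hg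
  have hMx : 0 ≤ Mx := (abs_nonneg _).trans (hD (fun _ => Classical.arbitrary Z))
  have hQ : 0 < (Fintype.card Z : ℝ) := by exact_mod_cast Fintype.card_pos
  have hQN : 0 < (Fintype.card Z : ℝ) ^ N := pow_pos hQ N
  refine ⟨fun a => Mx * ∑ τ with t ≤ psz τ, w a τ,
    fun a => mul_nonneg hMx (Finset.sum_nonneg fun τ _ => hw a τ), ?_, ?_⟩
  · intro a ha
    -- light terms vanish
    have hlight : ∀ τ, psz τ < t → w a τ * ∑ z, jun τ z * D z = 0 := by
      intro τ hτ
      by_cases h0 : w a τ = 0
      · rw [h0, zero_mul]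
      · have hwp : 0 < w a τ := lt_of_le_of_ne (hw a τ) (Ne.symm h0)
        rw [hz τ hτ, mul_zero]
        intro z hjz
        have hjp : 0 < jun τ z := lt_of_le_of_ne (jun_nonneg τ z) (Ne.symm hjz)
        have hrp : 0 < rhx h g a z := by
          rw [hrho a z]
          refine lt_of_lt_of_le (mul_pos hwp hjp) ?_
          exact Finset.single_le_sum (f := fun τ => w a τ * jun τ z)
            (fun τ' _ => mul_nonneg (hw a τ') (jun_nonneg τ' z)) (Finset.mem_univ τ)
        obtain ⟨x, hx⟩ : ∃ x, g x * jun (fun i => some (h (a i) (x i))) z ≠ 0 := by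
          by_contra hcon
          push Not at hcon
          have : rhx h g a z = 0 := Finset.sum_eq_zero fun x _ => hcon x
          exact hrp.ne' this
        have hgx : g x ≠ 0 := left_ne_zero_of_mul hx
        have hja := right_ne_zero_of_mul hx
        rw [jun_some] at hja
        have hza : z = fun i => h (a i) (x i) := by
          by_contra hne
          exact hja (if_neg hne)
        rw [hza]
        exact ha x hgx
    have e1 := sum_x_eq h g a D
    have e2 : ∑ z, rhx h g a z * D z = ∑ τ, w a τ * ∑ z, jun τ z * D z := by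
      simp only [hrho, Finset.sum_mul, Finset.mul_sum]
      rw [Finset.sum_comm]
      refine Finset.sum_congr rfl fun τ _ => Finset.sum_congr rfl fun z _ => ?_
      ring
    have e3 : ∑ τ, w a τ * ∑ z, jun τ z * D z =
        ∑ τ with t ≤ psz τ, w a τ * ∑ z, jun τ z * D z := by
      rw [Finset.sum_filter]
      refine Finset.sum_congr rfl fun τ _ => ?_
      split_ifs with ht
      · rfl
      · exact hlight τ (not_le.1 ht)
    have e4 : |∑ τ with t ≤ psz τ, w a τ * ∑ z, jun τ z * D z| ≤
        (Fintype.card Z : ℝ) ^ N * (Mx * ∑ τ with t ≤ psz τ, w a τ) := by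
      calc |∑ τ with t ≤ psz τ, w a τ * ∑ z, jun τ z * D z|
          ≤ ∑ τ with t ≤ psz τ, |w a τ * ∑ z, jun τ z * D z| := Finset.abs_sum_le_sum_abs _ _
        _ ≤ ∑ τ with t ≤ psz τ, w a τ * (Mx * (Fintype.card Z : ℝ) ^ N) := by
            refine Finset.sum_le_sum fun τ _ => ?_
            rw [abs_mul, abs_of_nonneg (hw a τ)]
            exact mul_le_mul_of_nonneg_left (abs_sum_jun_le τ D Mx hD) (hw a τ)
        _ = (Fintype.card Z : ℝ) ^ N * (Mx * ∑ τ with t ≤ psz τ, w a τ) := by
            rw [← Finset.sum_mul]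
            ring
    rw [← e3, ← e2, ← e1, abs_mul, abs_of_pos hQN] at e4
    exact le_of_mul_le_mul_left e4 hQN
  · simp only [mul_pow]
    rw [← Finset.mul_sum, mul_assoc]
    exact mul_le_mul_of_nonneg_left hX (pow_nonneg hMx _)

end Pool.Agent.H78.AV
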