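import Pool.Agent.H91.AV.Targets

namespace Pool.Agent.H78.AV

open Finset Pool.Agent.H91.AV

theorem pf_TRM : S_TRM := by
  intro Y _ r f T Fm ka g θ ρ hr hf hfm hT hsum hg hka hθ hρ hcond
  set phi : ℝ := ∑ a, f a with hphi
  have hphi0 : 0 ≤ phi := Finset.sum_nonneg fun a _ => hf a
  have hR0 : 0 ≤ ρ * (phi + θ) * Real.sqrt g := by positivity
  rcases hphi0.eq_or_lt with h0 | hpos
  · have hz : ∀ a, f a = 0 := by
      intro a
      have := (Finset.sum_eq_zero_iff_of_nonneg (fun a _ => hf a)).1 (hphi ▸ h0.symm) a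
        (mem_univ a)
      exact this
    have : ∑ a, f a * T a = 0 := Finset.sum_eq_zero fun a _ => by rw [hz a, zero_mul]
    rw [this]; exact hR0
  · obtain ⟨k, hk⟩ : ∃ k, 2 * r = k + 1 := ⟨2 * r - 1, by omega⟩
    have h1 := Real.pow_arith_mean_le_arith_mean_pow univ (fun a => f a / phi) T
      (fun a _ => div_nonneg (hf a) hpos.le)
      (by rw [← Finset.sum_div]; exact div_self hpos.ne') (fun a _ => hT a) (2 * r)
    have h2 : ∑ a, f a / phi * T a = (∑ a, f a * T a) / phi := by
      rw [Finset.sum_div]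
      exact Finset.sum_congr rfl fun a _ => by ring
    have h3 : ∑ a, f a / phi * T a ^ (2 * r) ≤ Fm / phi * ∑ a, T a ^ (2 * r) := by
      rw [Finset.mul_sum]
      refine Finset.sum_le_sum fun a _ => ?_
      exact mul_le_mul_of_nonneg_right (div_le_div_of_nonneg_right (hfm a) hpos.le)
        (pow_nonneg (hT a) _)
    have hFm : 0 ≤ Fm := by
      obtain ⟨a, ha⟩ : ∃ a, f a ≠ 0 := by
        by_contra hcon
        push Not at hcon
        exact hpos.ne' (hphi.trans (Finset.sum_eq_zero fun a _ => hcon a))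
      exact (hf a).trans (hfm a)
    have h4 : Fm / phi * ∑ a, T a ^ (2 * r) ≤ θ * ρ ^ (2 * r) * g ^ r / phi := by
      calc Fm / phi * ∑ a, T a ^ (2 * r) ≤ Fm / phi * (ka * g ^ r) :=
            mul_le_mul_of_nonneg_left hsum (by positivity)
        _ = (Fm * ka) * g ^ r / phi := by ring
        _ ≤ θ * ρ ^ (2 * r) * g ^ r / phi :=
            div_le_div_of_nonneg_right (mul_le_mul_of_nonneg_right hcond (by positivity)) hpos.le
    rw [h2, div_pow] at h1
    have h5 : (∑ a, f a * T a) ^ (2 * r) ≤ (ρ * (phi + θ) * Real.sqrt g) ^ (2 * r) := by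
      have h6 : (∑ a, f a * T a) ^ (2 * r) ≤
          θ * ρ ^ (2 * r) * g ^ r / phi * phi ^ (2 * r) :=
        (div_le_iff₀ (by positivity)).1 (h1.trans (h3.trans h4))
      have h7 : θ * ρ ^ (2 * r) * g ^ r / phi * phi ^ (2 * r) =
          ρ ^ (2 * r) * g ^ r * (phi ^ k * θ) := by
        rw [hk]; field_simp; ring
      have h8 : phi ^ k * θ ≤ (phi + θ) ^ (2 * r) := by
        rw [hk, pow_succ]
        exact mul_le_mul (pow_le_pow_left₀ hphi0 (by linarith) k) (by linarith) hθ.le
          (by positivity)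
      have h9 : (ρ * (phi + θ) * Real.sqrt g) ^ (2 * r) =
          ρ ^ (2 * r) * g ^ r * (phi + θ) ^ (2 * r) := by
        rw [mul_pow, mul_pow, pow_mul (Real.sqrt g) 2 r, Real.sq_sqrt hg]
        ring
      rw [h9]
      rw [h7] at h6
      exact h6.trans (mul_le_mul_of_nonneg_left h8 (by positivity))
    exact (pow_le_pow_iff_left₀ (Finset.sum_nonneg fun a _ => mul_nonneg (hf a) (hT a)) hR0
      (by omega)).1 h5

end Pool.Agent.H78.AV
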